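import Pool.Agent.Helper61.TQ.Core

set_option autoImplicit false

/-! Module SATNP: SAT is in NP. -/

namespace Pool.Agent.Helper61.TQ

open Pool.Agent.Helper58 Pool.Agent.Helper53.CL Pool.Agent.Helper52.Grid

/-! ### canonical digit words -/

/-- the last digit is true, if any -/
def satnp_canon (d : W) : Bool := hd d.reverse true

lemma satnp_canon_cons (b c : Bool) (d : W) : satnp_canon (b :: c :: d) = satnp_canon (c :: d) := by
  unfold satnp_canon
  rw [List.reverse_cons]
  obtain ⟨a, t, h⟩ : ∃ a t, (c :: d).reverse = a :: t :=
    List.exists_cons_of_ne_nil (by simp)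
  rw [h]
  rfl

lemma satnp_exists_bits : ∀ d : W, satnp_canon d = true → ∃ i : ℕ, i.bits = d
  | [], _ => ⟨0, by simp⟩
  | [b], h => by
    have hb : b = true := h
    subst hb
    exact ⟨1, by simp⟩
  | b :: c :: d, h => by
    rw [satnp_canon_cons] at h
    obtain ⟨i, hi⟩ := satnp_exists_bits (c :: d) h
    have hi0 : i ≠ 0 := by
      rintro rfl
      simp at hi
    refine ⟨Nat.bit b i, ?_⟩
    rw [Nat.bits_append_bit i b (fun h0 => absurd h0 hi0), hi]

lemma satnp_canon_bits : ∀ i : ℕ, satnp_canon i.bits = true := by
  intro i
  induction i using Nat.strong_induction_on with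
  | _ i ih =>
    by_cases h0 : i = 0
    · subst h0
      simp [satnp_canon, hd, lcase]
    · rw [bits_half i h0]
      by_cases h1 : i / 2 = 0
      · have : i = 1 := by omega
        subst this
        simp [satnp_canon, hd, lcase]
      · have h2 := ih (i / 2) (by omega)
        rw [bits_half (i / 2) h1] at h2 ⊢
        rw [satnp_canon_cons]
        exact h2

/-! ### the stack machine -/

/-- binary operation on a stack -/
def satnp_bin (op : Bool → Bool → Bool) (st : W) : W :=
  lcase st [] (fun a t => lcase t [] (fun b u => op b a :: u))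

def satnp_neg (st : W) : W := lcase st [] (fun a t => (!a) :: t)

/-- processing a letter; state: digits, stack, ok -/
def satnp_letter (T : List W) (s : W × (W × Bool)) (w : W) : W × (W × Bool) :=
  if w = [false, false, false] then (s.1 ++ [false], s.2)
  else if w = [false, false, true] then (s.1 ++ [true], s.2)
  else if w = [false, true, false] then
    ([], ((T.any (fun n => decide (n = s.1))) :: s.2.1, s.2.2 && satnp_canon s.1))
  else if w = [false, true, true] then
    (s.1, (satnp_neg s.2.1, s.2.2 && (decide (s.1 = []) && decide (1 ≤ s.2.1.length))))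
  else if w = [true, false, false] then
    (s.1, (satnp_bin (fun b a => b && a) s.2.1,
      s.2.2 && (decide (s.1 = []) && decide (2 ≤ s.2.1.length))))
  else if w = [true, false, true] then
    (s.1, (satnp_bin (fun b a => b || a) s.2.1,
      s.2.2 && (decide (s.1 = []) && decide (2 ≤ s.2.1.length))))
  else (s.1, (s.2.1, false))

/-- processing a bit -/
def satnp_step (T : List W) (s : W × (W × (W × Bool))) (b : Bool) : W × (W × (W × Bool)) :=
  if s.1.length < 2 then (s.1 ++ [b], s.2) else ([], satnp_letter T s.2 (s.1 ++ [b]))

def satnp_run (T : List W) (x : W) (s : W × (W × (W × Bool))) : W × (W × (W × Bool)) :=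
  x.foldl (satnp_step T) s

lemma satnp_run_append (T : List W) (x y : W) (s : W × (W × (W × Bool))) :
    satnp_run T (x ++ y) s = satnp_run T y (satnp_run T x s) := by
  unfold satnp_run
  rw [List.foldl_append]

lemma satnp_run_three (T : List W) (a b c : Bool) (s : W × (W × Bool)) :
    satnp_run T [a, b, c] ([], s) = ([], satnp_letter T s [a, b, c]) := rfl

/-- truth value of a variable according to the certificate -/
def satnp_val (T : List W) (i : ℕ) : Bool := T.any (fun n => decide (n = i.bits))

lemma satnp_digits (T : List W) (d e st : W) (ok : Bool) :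
    satnp_run T (d.flatMap (fun b => [false, false, b])) ([], (e, (st, ok))) =
      ([], (e ++ d, (st, ok))) := by
  induction d generalizing e with
  | nil => simp [satnp_run]
  | cons b d ih =>
    rw [List.flatMap_cons, satnp_run_append, satnp_run_three]
    have : satnp_letter T (e, (st, ok)) [false, false, b] = (e ++ [b], (st, ok)) := by
      cases b <;> simp [satnp_letter]
    rw [this, ih]
    simp

lemma satnp_complete (T : List W) (φ : Fm) (st : W) (ok : Bool) :
    satnp_run T φ.code ([], ([], (st, ok))) =
      ([], ([], (φ.eval (satnp_val T) :: st, ok))) := by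
  induction φ generalizing st with
  | var i =>
    rw [Fm.code, satnp_run_append, satnp_digits, satnp_run_three]
    simp [satnp_letter, satnp_canon_bits, Fm.eval, satnp_val]
  | neg φ ih =>
    rw [Fm.code, satnp_run_append, ih, satnp_run_three]
    simp [satnp_letter, Fm.eval, satnp_neg, lcase]
  | and φ ψ ih1 ih2 =>
    rw [Fm.code, satnp_run_append, satnp_run_append, ih1, ih2, satnp_run_three]
    simp [satnp_letter, Fm.eval, satnp_bin, lcase]
  | or φ ψ ih1 ih2 =>
    rw [Fm.code, satnp_run_append, satnp_run_append, ih1, ih2, satnp_run_three]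
    simp [satnp_letter, Fm.eval, satnp_bin, lcase]

/-- invariant for soundness -/
def satnp_Inv (T : List W) (x : W) (s : W × (W × (W × Bool))) : Prop :=
  s.2.2.2 = true → ∃ fs : List Fm,
    x = fs.reverse.flatMap Fm.code ++ s.2.1.flatMap (fun b => [false, false, b]) ++ s.1 ∧
    s.2.2.1 = fs.map (fun φ => φ.eval (satnp_val T)) ∧ s.1.length < 3

lemma satnp_inv_letter (T : List W) (x w : W) (s : W × (W × Bool)) (_hw : w.length = 3)
    (fs : List Fm) (hx : x = fs.reverse.flatMap Fm.code ++ s.1.flatMap (fun b => [false, false, b]) ++ w)
    (hst : s.2.1 = fs.map (fun φ => φ.eval (satnp_val T))) :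
    satnp_Inv T x ([], satnp_letter T s w) := by
  obtain ⟨d, st, ok⟩ := s
  simp only at hx hst
  unfold satnp_Inv satnp_letter
  intro hok
  split_ifs at hok ⊢ with h1 h2 h3 h4 h5 h6
  · exact ⟨fs, by rw [hx, h1]; simp, hst, by simp⟩
  · exact ⟨fs, by rw [hx, h2]; simp, hst, by simp⟩
  · simp only [Bool.and_eq_true] at hok
    obtain ⟨i, hi⟩ := satnp_exists_bits d hok.2
    refine ⟨Fm.var i :: fs, ?_, ?_, by simp⟩
    · rw [hx, h3]
      simp [Fm.code, hi]
    · simp [Fm.eval, satnp_val, hi, hst]
  · simp only [Bool.and_eq_true, decide_eq_true_eq] at hok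
    obtain ⟨-, hd0, hlen⟩ := hok
    rw [hst, List.length_map] at hlen
    obtain ⟨φ, fs, rfl⟩ : ∃ φ gs, fs = φ :: gs := by
      cases fs with
      | nil => simp at hlen
      | cons φ gs => exact ⟨φ, gs, rfl⟩
    refine ⟨Fm.neg φ :: fs, ?_, ?_, by simp⟩
    · rw [hx, h4, hd0]
      simp [Fm.code]
    · simp [Fm.eval, hst, satnp_neg, lcase]
  · simp only [Bool.and_eq_true, decide_eq_true_eq] at hok
    obtain ⟨-, hd0, hlen⟩ := hok
    rw [hst, List.length_map] at hlen
    obtain ⟨φ, ψ, fs, rfl⟩ : ∃ φ ψ gs, fs = φ :: ψ :: gs := by
      cases fs with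
      | nil => simp at hlen
      | cons φ gs =>
        cases gs with
        | nil => simp at hlen
        | cons ψ gs => exact ⟨φ, ψ, gs, rfl⟩
    refine ⟨Fm.and ψ φ :: fs, ?_, ?_, by simp⟩
    · rw [hx, h5, hd0]
      simp [Fm.code]
    · simp [Fm.eval, hst, satnp_bin, lcase]
  · simp only [Bool.and_eq_true, decide_eq_true_eq] at hok
    obtain ⟨-, hd0, hlen⟩ := hok
    rw [hst, List.length_map] at hlen
    obtain ⟨φ, ψ, fs, rfl⟩ : ∃ φ ψ gs, fs = φ :: ψ :: gs := by
      cases fs with
      | nil => simp at hlen
      | cons φ gs =>
        cases gs with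
        | nil => simp at hlen
        | cons ψ gs => exact ⟨φ, ψ, gs, rfl⟩
    refine ⟨Fm.or ψ φ :: fs, ?_, ?_, by simp⟩
    · rw [hx, h6, hd0]
      simp [Fm.code]
    · simp [Fm.eval, hst, satnp_bin, lcase]

lemma satnp_ok_letter (T : List W) (s : W × (W × Bool)) (w : W)
    (h : (satnp_letter T s w).2.2 = true) : s.2.2 = true := by
  unfold satnp_letter at h
  split_ifs at h <;> simp_all

lemma satnp_inv_step (T : List W) (x : W) (b : Bool) (s : W × (W × (W × Bool)))
    (h : satnp_Inv T x s) : satnp_Inv T (x ++ [b]) (satnp_step T s b) := by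
  unfold satnp_step
  split_ifs with hlen
  · intro hok
    obtain ⟨fs, h1, h2, -⟩ := h hok
    refine ⟨fs, ?_, h2, ?_⟩
    · show x ++ [b] = _ ++ _ ++ (s.1 ++ [b])
      rw [h1]
      simp only [List.append_assoc]
    · show (s.1 ++ [b]).length < 3
      rw [List.length_append, List.length_singleton]
      omega
  · intro hok
    have hok' : s.2.2.2 = true := satnp_ok_letter T s.2 _ hok
    obtain ⟨fs, h1, h2, h3⟩ := h hok'
    refine satnp_inv_letter T (x ++ [b]) (s.1 ++ [b]) s.2 ?_ fs ?_ h2 hok
    · rw [List.length_append, List.length_singleton]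
      omega
    · rw [h1]
      simp only [List.append_assoc]

lemma satnp_inv_run (T : List W) (y x : W) (s : W × (W × (W × Bool)))
    (h : satnp_Inv T x s) : satnp_Inv T (x ++ y) (satnp_run T y s) := by
  induction y generalizing x s with
  | nil => simpa [satnp_run] using h
  | cons b y ih =>
    have h1 := ih (x ++ [b]) (satnp_step T s b) (satnp_inv_step T x b s h)
    rw [List.append_assoc] at h1
    exact h1

/-- acceptance -/
def satnp_acc (T : List W) (x : W) : Bool :=
  decide (satnp_run T x ([], ([], ([], true))) = ([], ([], ([true], true))))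

lemma satnp_sound (T : List W) (x : W) (h : satnp_acc T x = true) : x ∈ SAT := by
  unfold satnp_acc at h
  rw [decide_eq_true_eq] at h
  have h0 : satnp_Inv T [] ([], ([], ([], true))) := fun _ => ⟨[], by simp, by simp, by simp⟩
  have h1 := satnp_inv_run T x [] _ h0
  rw [List.nil_append, h] at h1
  obtain ⟨fs, h2, h3, -⟩ := h1 rfl
  simp only at h2 h3
  obtain ⟨φ, rfl⟩ : ∃ φ, fs = [φ] := by
    have := congrArg List.length h3
    rw [List.length_map] at this
    exact List.length_eq_one_iff.mp (by simpa using this.symm)
  refine ⟨φ, ?_, satnp_val T, ?_⟩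
  · rw [h2]
    simp
  · simpa using h3.symm

/-! ### certificates -/

/-- names of the true variables of a formula -/
def satnp_names (v : ℕ → Bool) : Fm → List W
  | .var i => bif v i then [i.bits] else []
  | .neg φ => satnp_names v φ
  | .and φ ψ => satnp_names v φ ++ satnp_names v ψ
  | .or φ ψ => satnp_names v φ ++ satnp_names v ψ

/-- coding of a list of words -/
def satnp_enc (T : List W) : W := T.flatMap (fun n => n.flatMap (fun b => [true, b]) ++ [false])

lemma satnp_two (n : W) : (n.flatMap (fun b => [true, b])).length = 2 * n.length := by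
  induction n with
  | nil => rfl
  | cons b w ih => rw [List.flatMap_cons, List.length_append, ih]; simp; ring

lemma satnp_three (n : W) : (n.flatMap (fun b => [false, false, b])).length = 3 * n.length := by
  induction n with
  | nil => rfl
  | cons b w ih => rw [List.flatMap_cons, List.length_append, ih]; simp; ring

lemma satnp_enc_length (v : ℕ → Bool) (φ : Fm) :
    (satnp_enc (satnp_names v φ)).length ≤ φ.code.length := by
  induction φ with
  | var i =>
    unfold satnp_names satnp_enc Fm.code
    cases v i
    · simp
    · simp only [cond_true, List.flatMap_cons, List.flatMap_nil, List.append_nil,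
        List.length_append, satnp_two, satnp_three, List.length_cons, List.length_nil]
      omega
  | neg φ ih =>
    unfold satnp_names Fm.code
    rw [List.length_append]
    omega
  | and φ ψ ih1 ih2 =>
    unfold satnp_names Fm.code
    unfold satnp_enc at ih1 ih2 ⊢
    rw [List.flatMap_append, List.length_append, List.length_append, List.length_append]
    omega
  | or φ ψ ih1 ih2 =>
    unfold satnp_names Fm.code
    unfold satnp_enc at ih1 ih2 ⊢
    rw [List.flatMap_append, List.length_append, List.length_append, List.length_append]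
    omega

lemma satnp_names_true (v : ℕ → Bool) (φ : Fm) (n : W) (h : n ∈ satnp_names v φ) :
    ∃ i, n = i.bits ∧ v i = true := by
  induction φ with
  | var i =>
    unfold satnp_names at h
    cases hv : v i
    · rw [hv] at h
      simp at h
    · rw [hv] at h
      simp only [cond_true, List.mem_singleton] at h
      exact ⟨i, h, hv⟩
  | neg φ ih => exact ih h
  | and φ ψ ih1 ih2 =>
    rcases List.mem_append.mp h with h | h
    · exact ih1 h
    · exact ih2 h
  | or φ ψ ih1 ih2 =>
    rcases List.mem_append.mp h with h | h
    · exact ih1 h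
    · exact ih2 h

lemma satnp_bits_inj {i j : ℕ} (h : i.bits = j.bits) : i = j := by
  apply Nat.digits.injective 2
  show Nat.digits 2 i = Nat.digits 2 j
  rw [Nat.digits_two_eq_bits, Nat.digits_two_eq_bits, h]

lemma satnp_eval_names (v : ℕ → Bool) (T : List W) (hT : ∀ n ∈ T, ∃ i, n = i.bits ∧ v i = true)
    (φ : Fm) (h : ∀ n ∈ satnp_names v φ, n ∈ T) : φ.eval (satnp_val T) = φ.eval v := by
  induction φ with
  | var i =>
    show satnp_val T i = v i
    cases hv : v i
    · rw [← Bool.not_eq_true]
      intro h1
      unfold satnp_val at h1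
      rw [List.any_eq_true] at h1
      obtain ⟨n, hn, h2⟩ := h1
      rw [decide_eq_true_eq] at h2
      obtain ⟨j, hj, hvj⟩ := hT n hn
      rw [hj] at h2
      rw [satnp_bits_inj h2, hv] at hvj
      simp at hvj
    · unfold satnp_val
      rw [List.any_eq_true]
      refine ⟨i.bits, h _ ?_, by simp⟩
      unfold satnp_names
      rw [hv]
      simp
  | neg φ ih =>
    show (!(φ.eval _)) = !(φ.eval _)
    rw [ih h]
  | and φ ψ ih1 ih2 =>
    show (φ.eval _ && ψ.eval _) = (φ.eval _ && ψ.eval _)
    rw [ih1 fun n hn => h n (List.mem_append_left _ hn),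
      ih2 fun n hn => h n (List.mem_append_right _ hn)]
  | or φ ψ ih1 ih2 =>
    show (φ.eval _ || ψ.eval _) = (φ.eval _ || ψ.eval _)
    rw [ih1 fun n hn => h n (List.mem_append_left _ hn),
      ih2 fun n hn => h n (List.mem_append_right _ hn)]

/-- parsing a list of words; state: pending, current word, list -/
def satnp_pstep (s : Bool × (W × List W)) (b : Bool) : Bool × (W × List W) :=
  bif s.1 then (false, (s.2.1 ++ [b], s.2.2))
  else (bif b then (true, s.2) else (false, ([], s.2.2 ++ [s.2.1])))

def satnp_parse (w : W) : List W := (w.foldl satnp_pstep (false, ([], []))).2.2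

lemma satnp_parse_word (n c : W) (T : List W) :
    (n.flatMap (fun b => [true, b])).foldl satnp_pstep (false, (c, T)) = (false, (c ++ n, T)) := by
  induction n generalizing c with
  | nil => simp
  | cons b n ih =>
    rw [List.flatMap_cons, List.foldl_append]
    have : [true, b].foldl satnp_pstep (false, (c, T)) = (false, (c ++ [b], T)) := rfl
    rw [this, ih]
    simp

lemma satnp_parse_list (T U : List W) :
    (satnp_enc T).foldl satnp_pstep (false, ([], U)) = (false, ([], U ++ T)) := by
  induction T generalizing U with
  | nil => simp [satnp_enc]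
  | cons n T ih =>
    unfold satnp_enc at ih ⊢
    rw [List.flatMap_cons, List.foldl_append, List.foldl_append, satnp_parse_word]
    have : [false].foldl satnp_pstep (false, ([] ++ n, U)) = (false, ([], U ++ [n])) := rfl
    rw [this, ih]
    simp

lemma satnp_parse_enc (T : List W) : satnp_parse (satnp_enc T) = T := by
  unfold satnp_parse
  rw [satnp_parse_list]
  simp

/-! ### polynomial time -/

lemma satnp_sz_snoc (v : W) (c : Bool) : sz (v ++ [c]) ≤ sz v + 4 := by
  have h4 := sz_append v [c]
  rw [sz_lcons, sz_lnil] at h4
  have := sz_bool c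
  omega

theorem satnp_ptf_parse {γ : Type} [Enc γ] {w : γ → W} (hw : PTf w) :
    PTf (fun x => satnp_parse (w x)) := by
  unfold satnp_parse
  have h := ptf_foldl_add (γ := γ) (l := w) (init := fun _ => (false, (([] : W), ([] : List W))))
    (step := fun _ s a => satnp_pstep s a) (K := fun _ => 10) hw (PTf.const _) ?_ (PB.const _) ?_
  · exact PTf.snd (PTf.snd h)
  · unfold satnp_pstep
    fun_prop
  · rintro x ⟨p, c, T⟩ a _
    unfold satnp_pstep
    cases p
    · cases a
      · simp only [cond_false, sz_pair]
        have h1 := sz_append T [c]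
        rw [sz_lcons, sz_lnil] at h1
        have : sz ([] : W) = 1 := sz_lnil
        omega
      · simp only [cond_false, cond_true, sz_pair]
        have h1 := sz_bool true
        have h2 := sz_pos false
        omega
    · simp only [cond_true, sz_pair]
      have h1 := satnp_sz_snoc c a
      have h2 := sz_bool false
      omega

theorem satnp_ptf_run {γ : Type} [Enc γ] {T : γ → List W} {x : γ → W} (hT : PTf T) (hx : PTf x) :
    PTf (fun a => satnp_run (T a) (x a) ([], ([], ([], true)))) := by
  unfold satnp_run
  refine ptf_foldl_add (γ := γ) (l := x) (init := fun _ => ([], ([], ([], true))))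
    (step := fun a s b => satnp_step (T a) s b) (K := fun _ => 20) hx (PTf.const _) ?_
    (PB.const _) ?_
  · unfold satnp_step satnp_letter satnp_neg satnp_bin satnp_canon
    fun_prop
  · rintro a ⟨buf, d, st, ok⟩ b _
    have hneg : sz (satnp_neg st) ≤ sz st + 4 := by
      unfold satnp_neg
      cases st with
      | nil => simp [lcase]
      | cons u t =>
        have h1 := sz_bool (!u)
        simp only [lcase, sz_lcons]
        omega
    have hbin : ∀ op : Bool → Bool → Bool, sz (satnp_bin op st) ≤ sz st + 4 := by
      intro op
      unfold satnp_bin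
      cases st with
      | nil => simp [lcase]
      | cons u t =>
        cases t with
        | nil =>
          simp only [lcase, sz_lcons, sz_lnil]
          omega
        | cons v t =>
          have h1 := sz_bool (op v u)
          simp only [lcase, sz_lcons]
          omega
    have hb : ∀ c : Bool, sz c ≤ 3 := sz_bool
    have hb1 : 1 ≤ sz ok := sz_pos ok
    have hn : sz ([] : W) = 1 := sz_lnil
    have hbuf := sz_pos buf
    have hd0 := sz_pos d
    unfold satnp_step
    split_ifs with hlen
    · simp only [sz_pair]
      have := satnp_sz_snoc buf b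
      omega
    · unfold satnp_letter
      split_ifs
      all_goals simp only [sz_pair, hn]
      · have := satnp_sz_snoc d false
        omega
      · have := satnp_sz_snoc d true
        omega
      · rw [sz_lcons]
        have h1 := hb ((T a).any fun n => decide (n = d))
        have h2 := hb (ok && satnp_canon d)
        omega
      · have h2 := hb (ok && (decide (d = []) && decide (1 ≤ st.length)))
        omega
      · have h2 := hb (ok && (decide (d = []) && decide (2 ≤ st.length)))
        have h3 := hbin (fun b a => b && a)
        omega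
      · have h2 := hb (ok && (decide (d = []) && decide (2 ≤ st.length)))
        have h3 := hbin (fun b a => b || a)
        omega
      · have h2 := hb false
        omega

theorem st_SATNP : ST_SATNP := by
  refine ⟨fun x w => satnp_acc (satnp_parse w) x, fun x => x.length, ?_, by fun_prop, ?_, ?_⟩
  · unfold satnp_acc
    have h1 : PTf (fun x : W × W => satnp_parse x.2) := satnp_ptf_parse (by fun_prop)
    have h2 : PTf (fun x : W × W => satnp_run (satnp_parse x.2) x.1 ([], ([], ([], true)))) :=
      satnp_ptf_run h1 (by fun_prop)
    fun_prop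
  · intro x w h
    exact satnp_sound _ x h
  · rintro x ⟨φ, rfl, v, hv⟩
    refine ⟨satnp_enc (satnp_names v φ), satnp_enc_length v φ, ?_⟩
    show satnp_acc (satnp_parse _) _ = true
    rw [satnp_parse_enc]
    unfold satnp_acc
    rw [satnp_complete, satnp_eval_names v _ (satnp_names_true v φ) φ (fun _ h => h), hv]
    simp

end Pool.Agent.Helper61.TQ
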