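import Pool.Agent.Helper61.TQ.Core

set_option autoImplicit false

/-! Module T1: the main argument. -/

namespace Pool.Agent.Helper61.TQ

open Pool.Agent.Helper58 Pool.Agent.Helper53.CL Pool.Agent.Helper52.Grid

lemma t1_take (l : W) (n : ℕ) : l.take n = (l.reverse.drop (l.length - n)).reverse := by
  rw [List.drop_reverse, List.reverse_reverse]
  by_cases h : n ≤ l.length
  · congr 1
    omega
  · rw [List.take_of_length_le (by omega), List.take_of_length_le (by omega)]

theorem t1_ptf_take {γ : Type} [Enc γ] {l : γ → W} {n : γ → ℕ} (hl : PTf l) (hn : PTf n) :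
    PTf (fun x => (l x).take (n x)) := by
  have : PTf (fun x => ((l x).reverse.drop ((l x).length - n x)).reverse) := by fun_prop
  exact this.congr fun x => t1_take _ _

/-- condition on a bit of a transcript -/
def t1_bit (S : Sys) (P : Prg S) (kQ : ℕ × (W × W) → W) (x : ℕ × (W × W)) (i : ℕ) : Prop :=
  (x.2.2.getD i false = true ∧ P.Q x.1 x.2.1 (x.2.2.take i)) ∨
    ((!(x.2.2.getD i false)) = true ∧ S.PROOF x.1 (kQ (x.1, (x.2.1, x.2.2.take i))))

/-- verified transcripts -/
def t1_ver (S : Sys) (P : Prg S) (kQ : ℕ × (W × W) → W) (x : ℕ × (W × W)) : Prop :=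
  ∀ i ∈ List.range x.2.2.length, t1_bit S P kQ x i

lemma t1_bit_append (S : Sys) (P : Prg S) (kQ : ℕ × (W × W) → W) (n : ℕ) (r a b : W) (i : ℕ)
    (hi : i < a.length) : t1_bit S P kQ (n, (r, a ++ b)) i ↔ t1_bit S P kQ (n, (r, a)) i := by
  unfold t1_bit
  simp only
  rw [List.take_append_of_le_length (by omega), List.getD_append _ _ _ _ hi]

lemma t1_ver_append (S : Sys) (P : Prg S) (kQ : ℕ × (W × W) → W) (n : ℕ) (r a : W) (b : Bool) :
    t1_ver S P kQ (n, (r, a ++ [b])) ↔ t1_ver S P kQ (n, (r, a)) ∧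
      ((b = true ∧ P.Q n r a) ∨ (b = false ∧ S.PROOF n (kQ (n, (r, a))))) := by
  have hlast : t1_bit S P kQ (n, (r, a ++ [b])) a.length ↔
      ((b = true ∧ P.Q n r a) ∨ (b = false ∧ S.PROOF n (kQ (n, (r, a))))) := by
    unfold t1_bit
    simp
  unfold t1_ver
  simp only [List.mem_range, List.length_append, List.length_singleton]
  constructor
  · intro h
    refine ⟨fun i hi => ?_, ?_⟩
    · exact (t1_bit_append S P kQ n r a [b] i hi).mp (h i (by omega))
    · exact hlast.mp (h a.length (by omega))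
  · rintro ⟨h1, h2⟩ i hi
    by_cases h : i < a.length
    · exact (t1_bit_append S P kQ n r a [b] i h).mpr (h1 i h)
    · have : i = a.length := by omega
      rw [this]
      exact hlast.mpr h2

lemma t1_ver_tr (hSND : ST_SND) (S : Sys) (P : Prg S) (kQ : ℕ × (W × W) → W)
    (hkQ : ∀ x : ℕ × (W × W), P.Q x.1 x.2.1 x.2.2 ↔ kQ x ∈ S.K) (n : ℕ) (r a : W) :
    t1_ver S P kQ (n, (r, a)) → a = tr (P.Q n r) a.length := by
  classical
  induction a using List.reverseRecOn with
  | nil => intro _; rfl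
  | append_singleton a b ih =>
    rw [t1_ver_append]
    rintro ⟨h1, h2⟩
    have h3 := ih h1
    rw [List.length_append, List.length_singleton]
    show a ++ [b] = tr (P.Q n r) a.length ++ [_]
    rw [← h3]
    congr 2
    rcases h2 with ⟨hb, hQ⟩ | ⟨hb, hQ⟩
    · rw [hb]
      exact (decide_eq_true hQ).symm
    · rw [hb]
      refine (decide_eq_false ?_).symm
      intro h4
      exact hSND S n _ hQ ((hkQ (n, (r, a))).mp h4)

theorem st_T1 (hSND : ST_SND) (hDICH : ST_DICH) (hPP : ST_PP) (hNPC : ST_NPC)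
    (hNPALL : ST_NPALL) (hPRF : ST_PRF) (hAVG : ST_AVG) : ST_T1 := by
  classical
  rintro S ⟨P⟩
  obtain ⟨nDec, nComp, nAnd, nOr, nEx⟩ := hNPC
  obtain ⟨aMono, -⟩ := hAVG
  have pSol := hPP.2 S
  have nPRF := hPRF S
  obtain ⟨kQ, pkQ, hkQ⟩ := S.hard (fun x : ℕ × (W × W) => P.Q x.1 x.2.1 x.2.2) P.pQ
  -- verified transcripts are in NP
  have nver : NPf (t1_ver S P kQ) := by
    have pt : PTf (fun y : (ℕ × (W × W)) × ℕ => y.1.2.2.take y.2) :=
      t1_ptf_take (by fun_prop) (by fun_prop)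
    have pg : PTf (fun y : (ℕ × (W × W)) × ℕ => y.1.2.2.getD y.2 false) := by fun_prop
    have n1 : NPf (fun y : (ℕ × (W × W)) × ℕ => P.Q y.1.1 y.1.2.1 (y.1.2.2.take y.2)) := by
      have pf : PTf (fun y : (ℕ × (W × W)) × ℕ => (y.1.1, (y.1.2.1, y.1.2.2.take y.2))) := by
        fun_prop
      exact nComp _ _ P.pQ pf
    have n2 : NPf (fun y : (ℕ × (W × W)) × ℕ =>
        S.PROOF y.1.1 (kQ (y.1.1, (y.1.2.1, y.1.2.2.take y.2)))) := by
      have pf : PTf (fun y : (ℕ × (W × W)) × ℕ => (y.1.1, (y.1.2.1, y.1.2.2.take y.2))) := by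
        fun_prop
      have pf2 : PTf (fun y : (ℕ × (W × W)) × ℕ =>
          (y.1.1, kQ (y.1.1, (y.1.2.1, y.1.2.2.take y.2)))) := by
        have := PTf.comp pkQ pf
        fun_prop
      exact nComp (fun z : ℕ × W => S.PROOF z.1 z.2)
        (fun y : (ℕ × (W × W)) × ℕ => (y.1.1, kQ (y.1.1, (y.1.2.1, y.1.2.2.take y.2)))) nPRF pf2
    have n3 : NPf (fun y : (ℕ × (W × W)) × ℕ => t1_bit S P kQ y.1 y.2) :=
      nOr _ _ (nAnd _ _ (nDec _ pg) n1) (nAnd _ _ (nDec _ (by fun_prop)) n2)
    exact hNPALL (fun (x : ℕ × (W × W)) (i : ℕ) => t1_bit S P kQ x i)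
      (fun x => List.range x.2.2.length) n3 (by fun_prop)
  -- reduction of the existence of a verified transcript
  obtain ⟨kV, pkV, hkV⟩ := S.hard (fun x : ℕ × (W × ℕ) => ∃ a : W, a.length ≤ x.2.2 ∧
    (decide (a.length = x.2.2) = true ∧ t1_ver S P kQ (x.1, (x.2.1, a)))) (by
      apply nEx (fun (x : ℕ × (W × ℕ)) (a : W) =>
        (decide (a.length = x.2.2) = true ∧ t1_ver S P kQ (x.1, (x.2.1, a))))
        (fun x => x.2.2) _ (by fun_prop)
      refine nAnd _ _ (nDec _ (by fun_prop)) ?_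
      have pf : PTf (fun y : (ℕ × (W × ℕ)) × W => (y.1.1, (y.1.2.1, y.2))) := by fun_prop
      exact nComp _ _ nver pf)
  have hkV' : ∀ (n : ℕ) (r : W) (j : ℕ), kV (n, (r, j)) ∈ S.K ↔
      ∃ a : W, a.length = j ∧ t1_ver S P kQ (n, (r, a)) := by
    intro n r j
    rw [← hkV]
    simp only [decide_eq_true_eq]
    constructor
    · rintro ⟨a, -, h1, h2⟩
      exact ⟨a, h1, h2⟩
    · rintro ⟨a, h1, h2⟩
      exact ⟨a, h1.le, h1, h2⟩
  have hsolK : ∀ ρ X : W, S.solves ρ X = true → X ∈ S.K := fun ρ X h => (S.hV _ _ h).2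
  -- the NP set
  obtain ⟨C1, hC1⟩ : ∃ C1 : (W × W) × W → Prop, C1 = fun y =>
      decide (y.1.2.length = P.ℓ y.1.1.length ∧ y.2.length = P.t y.1.1.length) = true ∧
      (t1_ver S P kQ (y.1.1.length, (y.1.2, y.2)) ∧
      (P.good y.1.1.length y.1.2 y.2 && !(P.alg y.1.1.length y.1.2 y.2 y.1.1)) = true) :=
    ⟨_, rfl⟩
  obtain ⟨C2, hC2⟩ : ∃ C2 : (W × W) × W → Prop, C2 = fun y =>
      decide (y.1.2.length = P.ℓ y.1.1.length ∧ y.2.length < P.t y.1.1.length) = true ∧
      (t1_ver S P kQ (y.1.1.length, (y.1.2, y.2)) ∧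
      (S.PROOF y.1.1.length (kV (y.1.1.length, (y.1.2, y.2.length + 1))) ∧
      (!(S.solves (kQ (y.1.1.length, (y.1.2, y.2))) y.1.1)) = true)) :=
    ⟨_, rfl⟩
  obtain ⟨A, hA⟩ : ∃ A : W → Prop, A = fun x => S.PROOF x.length x ∨
      ∃ r : W, r.length ≤ P.ℓ x.length ∧ ∃ a : W, a.length ≤ P.t x.length ∧
        (C1 ((x, r), a) ∨ C2 ((x, r), a)) := ⟨_, rfl⟩
  have pt' := P.pt
  have pℓ' := P.pℓ
  have nv3 : NPf (fun y : (W × W) × W => t1_ver S P kQ (y.1.1.length, (y.1.2, y.2))) := by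
    have pf : PTf (fun y : (W × W) × W => (y.1.1.length, (y.1.2, y.2))) := by fun_prop
    exact nComp _ _ nver pf
  have nC1 : NPf C1 := by
    rw [hC1]
    have p1 : PTf (fun y : (W × W) × W => P.t y.1.1.length) := PTf.comp pt' (by fun_prop)
    have p2 : PTf (fun y : (W × W) × W => P.ℓ y.1.1.length) := PTf.comp pℓ' (by fun_prop)
    have p3 : PTf (fun y : (W × W) × W => P.good y.1.1.length y.1.2 y.2) :=
      PTf.comp (f := fun y : (W × W) × W => (y.1.1.length, (y.1.2, y.2))) P.pgood (by fun_prop)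
    have p4 : PTf (fun y : (W × W) × W => P.alg y.1.1.length y.1.2 y.2 y.1.1) :=
      PTf.comp (f := fun y : (W × W) × W => ((y.1.1.length, (y.1.2, y.2)), y.1.1)) P.palg
        (by fun_prop)
    exact nAnd _ _ (nDec _ (by fun_prop)) (nAnd _ _ nv3 (nDec _ (by fun_prop)))
  have nC2 : NPf C2 := by
    rw [hC2]
    have p1 : PTf (fun y : (W × W) × W => P.t y.1.1.length) := PTf.comp pt' (by fun_prop)
    have p2 : PTf (fun y : (W × W) × W => P.ℓ y.1.1.length) := PTf.comp pℓ' (by fun_prop)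
    have p3 : PTf (fun y : (W × W) × W => kV (y.1.1.length, (y.1.2, y.2.length + 1))) :=
      PTf.comp pkV (by fun_prop)
    have p4 : PTf (fun y : (W × W) × W => kQ (y.1.1.length, (y.1.2, y.2))) :=
      PTf.comp pkQ (by fun_prop)
    have p5 : PTf (fun y : (W × W) × W => S.solves (kQ (y.1.1.length, (y.1.2, y.2))) y.1.1) :=
      PTf.comp (f := fun y : (W × W) × W => (kQ (y.1.1.length, (y.1.2, y.2)), y.1.1)) pSol
        (by fun_prop)
    have n5 : NPf (fun y : (W × W) × W =>
        S.PROOF y.1.1.length (kV (y.1.1.length, (y.1.2, y.2.length + 1)))) :=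
      nComp (fun z : ℕ × W => S.PROOF z.1 z.2)
        (fun y : (W × W) × W => (y.1.1.length, kV (y.1.1.length, (y.1.2, y.2.length + 1)))) nPRF
        (by fun_prop)
    exact nAnd _ _ (nDec _ (by fun_prop)) (nAnd _ _ nv3 (nAnd _ _ n5 (nDec _ (by fun_prop))))
  have nA : NPf A := by
    rw [hA]
    have n1 : NPf (fun x : W => S.PROOF x.length x) :=
      nComp (fun z : ℕ × W => S.PROOF z.1 z.2) (fun x : W => (x.length, x)) nPRF (by fun_prop)
    have p1 : PTf (fun y : W × W => P.t y.1.length) := PTf.comp pt' (by fun_prop)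
    have p2 : PTf (fun y : W => P.ℓ y.length) := PTf.comp pℓ' (by fun_prop)
    have n2 : NPf (fun y : W × W => ∃ a : W, a.length ≤ P.t y.1.length ∧
        (C1 ((y.1, y.2), a) ∨ C2 ((y.1, y.2), a))) := by
      refine nEx (fun (y : W × W) (a : W) => (C1 ((y.1, y.2), a) ∨ C2 ((y.1, y.2), a)))
        (fun y => P.t y.1.length) ?_ p1
      exact nOr _ _ nC1 nC2
    have n3 := nEx (fun (x : W) (r : W) => ∃ a : W, a.length ≤ P.t x.length ∧
        (C1 ((x, r), a) ∨ C2 ((x, r), a))) (fun x => P.ℓ x.length) n2 p2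
    exact nOr _ _ n1 n3
  have sA : ∀ x, A x → x ∉ S.K := by
    intro x hx
    rw [hA] at hx
    rcases hx with hx | ⟨r, -, a, -, hx | hx⟩
    · exact hSND S _ _ hx
    · rw [hC1] at hx
      simp only [decide_eq_true_eq, Bool.and_eq_true, Bool.not_eq_true'] at hx
      obtain ⟨⟨h1, h2⟩, h3, h4, h5⟩ := hx
      have h6 := t1_ver_tr hSND S P kQ hkQ _ _ _ h3
      rw [h2] at h6
      intro hxK
      rw [h6] at h4 h5
      have h7 := P.complete x.length r h1 h4 x rfl hxK
      rw [h7] at h5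
      simp at h5
    · rw [hC2] at hx
      simp only [decide_eq_true_eq, Bool.not_eq_true'] at hx
      obtain ⟨⟨h1, h2⟩, h3, h4, h5⟩ := hx
      have h6 := hSND S _ _ h4
      rw [hkV'] at h6
      have h7 : ∀ b : Bool, ¬ t1_ver S P kQ (x.length, (r, a ++ [b])) := fun b hb =>
        h6 ⟨a ++ [b], by simp, hb⟩
      have h8 : kQ (x.length, (r, a)) ∉ S.K := by
        rw [← hkQ]
        intro hQ
        exact h7 true ((t1_ver_append S P kQ _ r a true).mpr ⟨h3, Or.inl ⟨rfl, hQ⟩⟩)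
      have h9 : ¬ S.PROOF x.length (kQ (x.length, (r, a))) := by
        intro hQ
        exact h7 false ((t1_ver_append S P kQ _ r a false).mpr ⟨h3, Or.inr ⟨rfl, hQ⟩⟩)
      intro hxK
      have h10 := hDICH S _ _ h8 h9 x rfl hxK
      rw [h10] at h5
      simp at h5
  refine ⟨A, fun n => decide (∃ ρ : W, ρ.length = n ∧ ρ ∉ S.K ∧ ¬ A ρ),
    fun x r => (List.range (P.t x.length)).any
      (fun j => S.solves (kV (x.length, (r, j + 1))) x), P.ℓ, nA, ?_, P.pℓ, sA, ?_, ?_, ?_⟩
  · have p1 : PTf (fun x : W × W => P.t x.1.length) := PTf.comp pt' (by fun_prop)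
    have p2 : PTf (fun y : (W × W) × ℕ => kV (y.1.1.length, (y.1.2, y.2 + 1))) :=
      PTf.comp pkV (by fun_prop)
    have p3 : PTf (fun y : (W × W) × ℕ => S.solves (kV (y.1.1.length, (y.1.2, y.2 + 1))) y.1.1) :=
      PTf.comp (f := fun y : (W × W) × ℕ => (kV (y.1.1.length, (y.1.2, y.2 + 1)), y.1.1)) pSol
        (by fun_prop)
    fun_prop
  · intro x hx hadv
    simp only [decide_eq_false_iff_not] at hadv
    by_contra h
    exact hadv ⟨x, rfl, hx, h⟩
  · intro x r h
    rw [List.any_eq_true] at h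
    obtain ⟨j, -, hj⟩ := h
    exact hsolK _ _ hj
  · intro x hxK hadv
    simp only [decide_eq_true_eq] at hadv
    obtain ⟨ρ, hρn, hρK, hρA⟩ := hadv
    have hρP : ¬ S.PROOF x.length ρ := by
      intro h
      apply hρA
      rw [hA]
      left
      rwa [hρn]
    have hperf : S.Perfect x.length ρ := ⟨hρn, hDICH S _ _ hρK hρP⟩
    refine (P.learn x.length ⟨ρ, hperf⟩).trans (aMono _ _ _ ?_)
    intro r hr
    by_cases hg : P.good x.length r (tr (P.Q x.length r) (P.t x.length)) = true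
    swap
    · unfold ind
      rw [if_neg hg]
      split_ifs <;> norm_num
    have hgoal : (List.range (P.t x.length)).any
        (fun j => S.solves (kV (x.length, (r, j + 1))) x) = true := by
      -- no verified transcript of full length
      have h1 : ¬ ∃ a : W, a.length = P.t x.length ∧ t1_ver S P kQ (x.length, (r, a)) := by
        rintro ⟨a, ha, hv⟩
        apply hρA
        rw [hA]
        right
        refine ⟨r, by rw [hr, hρn], a, by rw [ha, hρn], Or.inl ?_⟩
        rw [hC1]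
        simp only [decide_eq_true_eq, Bool.and_eq_true, Bool.not_eq_true', hρn]
        refine ⟨⟨hr, ha⟩, hv, ?_, ?_⟩
        · have h6 := t1_ver_tr hSND S P kQ hkQ _ _ _ hv
          rw [ha] at h6
          rw [h6]
          exact hg
        · rw [← Bool.not_eq_true]
          intro h7
          exact hρK (P.sound _ _ _ _ h7)
      have h2 : ∃ m, ¬ ∃ a : W, a.length = m ∧ t1_ver S P kQ (x.length, (r, a)) := ⟨_, h1⟩
      obtain ⟨m, hm⟩ : ∃ m, m = Nat.find h2 := ⟨_, rfl⟩
      have h3 : ¬ ∃ a : W, a.length = m ∧ t1_ver S P kQ (x.length, (r, a)) := by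
        rw [hm]
        exact Nat.find_spec h2
      have h4 : m ≤ P.t x.length := by
        rw [hm]
        exact Nat.find_min' h2 h1
      have h5 : m ≠ 0 := by
        rintro h0
        apply h3
        refine ⟨[], by rw [h0]; rfl, ?_⟩
        intro i hi
        simp at hi
      obtain ⟨j, hj⟩ : ∃ j, m = j + 1 := ⟨m - 1, by omega⟩
      have h6 : ∃ a : W, a.length = j ∧ t1_ver S P kQ (x.length, (r, a)) := by
        have := Nat.find_min h2 (m := j) (by omega)
        rwa [not_not] at this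
      obtain ⟨a, ha, hv⟩ := h6
      have h7 : kV (x.length, (r, j + 1)) ∉ S.K := by
        rw [hkV', ← hj]
        exact h3
      have h8 : ¬ S.PROOF x.length (kV (x.length, (r, j + 1))) := by
        intro h
        apply hρA
        rw [hA]
        right
        refine ⟨r, by rw [hr, hρn], a, by rw [ha, hρn]; omega, Or.inr ?_⟩
        rw [hC2]
        simp only [decide_eq_true_eq, Bool.not_eq_true', hρn]
        refine ⟨⟨hr, by omega⟩, hv, by rw [ha]; exact h, ?_⟩
        rw [← Bool.not_eq_true]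
        intro h9
        exact hρK (hsolK _ _ h9)
      rw [List.any_eq_true]
      exact ⟨j, List.mem_range.mpr (by omega), hDICH S _ _ h7 h8 x rfl hxK⟩
    unfold ind
    rw [if_pos hgoal]
    split_ifs <;> norm_num

end Pool.Agent.Helper61.TQ
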